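import Pool.Agent.H8.RA.Transfer

/-!
# Homeomorphisms of 4-manifolds which nearly preserve the right angles of small isosceles right triangles

Q1 asks for an algorithm which decides whether two given homeomorphic closed smooth 4-manifolds are diffeomorphic. The
theorem is a criterion for the answer yes.

Let `X` and `Y` be closed smooth 4-manifolds, `X` connected, and let `e : X → ℝᵐ` and `j : Y → ℝᵏ` be injective
immersions; they measure distances and angles in `X` and `Y` (by the embedding theorem of Nash all Riemannian metrics
are induced by such maps). Let `S` be a set of scales which contains arbitrarily small positive numbers; it may be a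
sequence which tends to zero arbitrarily fast. Let `g : X → Y` be a homeomorphism, or a continuous map with a right
homotopy inverse, and `f = j ∘ g`.

There is a universal constant `δ > 0` such that the following holds. Suppose that at each point `x` the map `g` is a
local diffeomorphism, or that for some `τ > 0` the following holds for all `s ∈ S` small enough and all `u`, `v`, `w`
near `x`: if `|e u - e v|` and `|e w - e v|` differ from `s` by at most `τ s`, and `|e u - e w|` differs from `√2 s` by
at most `τ s` (so that `u`, `v`, `w` is nearly an isosceles right triangle with the right angle at `v` and legs of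
length `s`), then the angle at `f v` of the triangle `f u`, `f v`, `f w` is nearly a right angle:

`|⟨f u - f v, f w - f v⟩| < δ |f u - f v| |f w - f v|`.

Then `g` is a uniform limit of diffeomorphisms which agree with `g` outside any given neighbourhood of the set of the
points at which `g` is not a local diffeomorphism. In particular `X` and `Y` are diffeomorphic.

Nothing is assumed about the lengths of the sides of the image triangles: neither about the sizes of the images of
small spheres, nor about their eccentricity. The map need not be quasiconformal, Hölder continuous or differentiable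
anywhere, and nothing is assumed about the triangles whose legs are not close to some `s ∈ S`. Homeomorphisms which are
quasiconformal with dilatation close to one satisfy the condition at all scales.

The proof. It suffices to show that `g` is nearly a similarity on the balls of radius `s` for `s ∈ S`; then averages
over balls of radius `s ∈ S` and theorems of the library give the diffeomorphisms. In parametrizations, rescaled, we
have a map `F` of a large ball of `ℝ⁴` to a Euclidean space such that the right angles of the isosceles right triangles
with legs of length one are preserved up to the error `δ`.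

* A quadrilateral with four right angles is a rectangle; so the images of squares with sides of length one are nearly
  rectangles, with an error which is small with respect to the longer sides (`vec_square`).
* In dimension at least four a square with sides of length `√2` is the sum of two pairs of orthogonal unit
  vectors, all four orthogonal: the image of such a square is nearly a rectangle too, because it is composed of the
  images of four unit squares (`cube`, `vec_frame`). The lengths of the images of the four unit vectors are controlled
  by the sides of this rectangle.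
* If `e`, `e'` are orthogonal unit vectors, the points `u ± e`, `u ± e'` form such a square. So the second differences
  `k = F (u + e) + F (u - e) - 2 F u` and `k' = F (u + e') + F (u - e') - 2 F u` are nearly equal, and they are nearly
  orthogonal, as the sums of nearly orthogonal vectors; so both are small. Then the right angle of the rectangle says
  that `F (u + e) - F u` and `F (u + e') - F u` have nearly the same length (`vec_cross`, `steps`).

So the image of the unit sphere around `u` is nearly round, and the images of antipodal points are nearly antipodal. By
the quantitative theorem `near_affine` on such maps (proved in this run for MP_d636cb_gt.NearlyAntipodal) `F` is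
uniformly close to an affine map.
-/

set_option autoImplicit false

open Set Filter Topology Metric Function
open scoped Manifold ContDiff

noncomputable section

namespace Pool.Agent.Results.MP_d40431_gt.NearlyRightAngles

/-- `ℝ⁴` -/
abbrev R4 : Type := EuclideanSpace ℝ (Fin 4)

/-- the set of scales contains arbitrarily small positive numbers -/
def SmallScales (S : Set ℝ) : Prop := ∀ δ : ℝ, 0 < δ → ∃ s ∈ S, 0 < s ∧ s < δ

variable {X Y : Type} [TopologicalSpace X] [TopologicalSpace Y] {m k : ℕ}

/-- `f` is a local diffeomorphism at `x` (of class `C^∞`, with smooth inverse) -/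
def LocDiff [ChartedSpace R4 X] [ChartedSpace R4 Y] (f : X → Y) (x : X) : Prop :=
  IsLocalDiffeomorphAt (𝓡 4) (𝓡 4) ∞ f x

/-- `e` is a smooth immersion at `x`: in a smooth parametrization `A` of a neighbourhood of `x = A 0` (a local
diffeomorphism at `0`) it is smooth near `0` with an injective derivative at `0`. -/
def IsImmersed [ChartedSpace R4 X] (e : X → EuclideanSpace ℝ (Fin m)) (x : X) : Prop :=
  ∃ A : R4 → X, A 0 = x ∧ LocDiff A 0 ∧
    (∀ᶠ z in 𝓝 (0 : R4), ContDiffAt ℝ ∞ (fun z => e (A z)) z) ∧ Injective (fderiv ℝ (fun z => e (A z)) 0)

/-- `e` is a continuous injective immersion -/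
def IsEmb [ChartedSpace R4 X] (e : X → EuclideanSpace ℝ (Fin m)) : Prop :=
  Continuous e ∧ Injective e ∧ ∀ x, IsImmersed e x

/-- `g` has a right homotopy inverse -/
def HasRightHomotopyInverse (g : C(X, Y)) : Prop := ∃ r : C(Y, X), (g.comp r).Homotopic (ContinuousMap.id Y)

/-- There are a neighbourhood `U` of `x`, `r > 0` and `τ > 0` such that for all `s ∈ S` with `0 < s < r` and all
`u`, `v`, `w ∈ U` such that `‖e u - e v‖` and `‖e w - e v‖` differ from `s` by at most `τ s` and `‖e u - e w‖` differs
from `√2 s` by at most `τ s`, the inner product of `f u - f v` and `f w - f v` has absolute value less than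
`δ ‖f u - f v‖ ‖f w - f v‖`. -/
def NearlyRightAnglesAt (e : X → EuclideanSpace ℝ (Fin m)) (f : X → EuclideanSpace ℝ (Fin k)) (S : Set ℝ) (δ : ℝ)
    (x : X) : Prop :=
  ∃ U ∈ 𝓝 x, ∃ r : ℝ, 0 < r ∧ ∃ τ : ℝ, 0 < τ ∧ ∀ s ∈ S, 0 < s → s < r → ∀ u ∈ U, ∀ v ∈ U, ∀ w ∈ U,
    |‖e u - e v‖ - s| ≤ τ * s → |‖e w - e v‖ - s| ≤ τ * s → |‖e u - e w‖ - √2 * s| ≤ τ * s →
      |inner ℝ (f u - f v) (f w - f v)| < δ * (‖f u - f v‖ * ‖f w - f v‖)

/-- There is a universal constant `δ > 0` such that all continuous maps with a right homotopy inverse (for instance
homeomorphisms) between closed smooth 4-manifolds, the first one connected, which at every point `x` are local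
diffeomorphisms or satisfy `NearlyRightAnglesAt` with `δ` are uniform limits of diffeomorphisms, equal to `g` outside a
given open set which contains the points at which `g` is not a local diffeomorphism. -/
theorem result : ∃ δ : ℝ, 0 < δ ∧ ∀ (X Y : Type) [TopologicalSpace X] [TopologicalSpace Y]
    [CompactSpace X] [T2Space X] [ConnectedSpace X] [CompactSpace Y] [T2Space Y]
    [ChartedSpace R4 X] [ChartedSpace R4 Y] [IsManifold (𝓡 4) ∞ X] [IsManifold (𝓡 4) ∞ Y]
    -- the maps which measure distances and angles in `X` and `Y`, and the set of scales
    (m k : ℕ) (e : X → EuclideanSpace ℝ (Fin m)) (_ : IsEmb e) (j : Y → EuclideanSpace ℝ (Fin k)) (_ : IsEmb j)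
    (S : Set ℝ) (_ : SmallScales S)
    -- the map `g`
    (g : C(X, Y)) (_ : HasRightHomotopyInverse g)
    (_ : ∀ x, LocDiff g x ∨ NearlyRightAnglesAt e (fun x => j (g x)) S δ x)
    -- an open set which contains the bad points
    (O : Set X) (_ : IsOpen O) (_ : ∀ x, ¬ LocDiff g x → x ∈ O) (ε : ℝ) (_ : 0 < ε),
    ∃ Φ : Diffeomorph (𝓡 4) (𝓡 4) X Y ∞, (∀ x, ‖j (Φ x) - j (g x)‖ < ε) ∧ ∀ x, x ∉ O → Φ x = g x := by
  obtain ⟨δ, hδ, H⟩ := Pool.Agent.H8.RA.cct_of_right 4 le_rfl (η := 1 / 2) (by norm_num)
  refine ⟨δ, hδ, ?_⟩
  intro X Y _ _ _ _ _ _ _ _ _ _ _ m k e he j hj S hS g hg hc O hO hbad ε hε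
  obtain ⟨he, hei, he'⟩ := he
  obtain ⟨hj, hji, hj'⟩ := hj
  obtain ⟨r, hr⟩ := hg
  refine Pool.Agent.H865_cl.closed_main 3 m k X Y e he hei he' j hj hji hj' g r hr S hS (fun x hx => ?_) O hO hbad ε hε
  rw [Pool.Agent.H865_small.const_four]
  rcases hc x with h | h
  · exact absurd h hx
  · have h6 := H m k X Y e j g x S (he' x) (hj' (g x)) g.continuous.continuousAt h
    refine ⟨1 / 2, ?_, Or.inl h6⟩
    have h8 := Real.pi_gt_three
    linarith

end Pool.Agent.Results.MP_d40431_gt.NearlyRightAngles
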