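import Pool.Agent.H27.Tgt.Pi

/-!
# MP_d40431_gt, Q1: immersions of punctured manifolds which decide diffeomorphism

Q1 asks whether one can decide if two homeomorphic smooth 4-manifolds `M`, `N` are diffeomorphic. If
they are closed and orientable there are immersions (local diffeomorphisms) `G : M ∖ B → N`, `B` a
smooth ball, in the homotopy class of the homeomorphism, which near `∂B` are regularly homotopic to
an immersion of `B` (Smale-Hirsch theory). The theorem settles Q1 for the pairs of closed connected
manifolds which have such a `G` for which the regular homotopy can be chosen without *pinching*,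
provided the fundamental group is co-Hopfian (for example finite) or `G` is surjective on it: all
these pairs are diffeomorphic. (Conversely, a diffeomorphism is such a `G` without any balls, so no
other pair of closed connected manifolds is diffeomorphic.) The theorem holds for smooth manifolds
of any dimension `n`, and with any finite number of disjoint balls `B_i` in place of `B`.
The regular homotopies may be given in any manifold `W` with a local diffeomorphism to `N`, for
example `N` itself or a coordinate domain; pinchings are then only tested in `W`.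

Here a regular homotopy is a smooth family `F_t`, `0 ≤ t ≤ 1`, of maps `ℝⁿ → W` which are local
diffeomorphisms at the points of the unit sphere, `F_0` being a local diffeomorphism at all points
of the closed unit ball, for example a coordinate ball; so the restrictions of the `F_t` to the
sphere are cooriented immersions. Two sheets of such an immersion, at points `x ≠ y` of the sphere
with `F_t(x) = F_t(y)`, may intersect transversally, or be tangent with equal coorientations, or be
tangent with opposite coorientations. All this is allowed, except for the last possibility in the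
case that no curve in the first sheet leaves the second sheet to its outer side to second order
(`Pinching`). If the first sheet is the graph of `f` and the second the graph of `g`, locally over
the common tangent space, and the inner sides are the points below the graph of `f` and above the
graph of `g`, then this means that the Hessian of `f - g` is positive semidefinite. In a generic
regular homotopy this happens at the inverse self-tangencies of index zero only: the sheets touch
from their inner sides, as when a neck of an immersed ball is pinched.

The method: the set of the `t` for which the germ of `F_t` along the sphere extends to an immersion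
of the ball in `W` contains a neighbourhood of uniform size of each of its points. To see this, a
collar of uniform width is lifted to the immersed ball by a flow. At the smallest depth at which two
sheets of the lifted collar touch there are no points near the point of contact which belong to the
outer sides of both, and for small depths this contradicts the hypothesis, by compactness. So the
lifted collar is embedded, and can be straightened. The immersed balls at the ends of the homotopies
are glued to `G`, which gives a covering `M → N`.
-/

set_option autoImplicit false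

open Set Filter Topology Metric Function
open scoped Manifold ContDiff RealInnerProductSpace

noncomputable section

namespace Pool.Agent.Results.MP_d40431_gt.PuncturedImmersions

/-- `ℝⁿ` -/
abbrev R (n : ℕ) : Type := EuclideanSpace ℝ (Fin n)

section defs

variable {n : ℕ} {M N W : Type} [TopologicalSpace M] [ChartedSpace (R n) M]
  [TopologicalSpace N] [ChartedSpace (R n) N] [TopologicalSpace W] [ChartedSpace (R n) W]

/-- `f` is a local diffeomorphism at `x` -/
def LocDiff (n : ℕ) {M N : Type} [TopologicalSpace M] [ChartedSpace (R n) M]
    [TopologicalSpace N] [ChartedSpace (R n) N] (f : M → N) (x : M) : Prop :=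
  IsLocalDiffeomorphAt (𝓡 n) (𝓡 n) ∞ f x

/-- `F` is smooth, as a map `ℝ × ℝⁿ → W` -/
def SmoothFamily (F : ℝ → R n → W) : Prop :=
  ContMDiff 𝓘(ℝ, ℝ × R n) (𝓡 n) ∞ fun p : ℝ × R n => F p.1 p.2

/-- `F` is a regular homotopy of the cooriented unit sphere in the manifold `W`: `F` is smooth and
`F t` is a local diffeomorphism at the points of the unit sphere (`0 ≤ t ≤ 1`), and `F 0` is a local
diffeomorphism at all points of the closed unit ball. -/
structure RegularHomotopy (F : ℝ → R n → W) : Prop where
  smooth : SmoothFamily F
  immersed : ∀ t ∈ Icc (0 : ℝ) 1, ∀ x, ‖x‖ = 1 → LocDiff n (F t) x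
  start : ∀ x, ‖x‖ ≤ 1 → LocDiff n (F 0) x

/-- `α` and `β` are smooth curves (near `0`) through `x` and `y` with `f (α s) = f (β s)` -/
structure CommonCurve (f : R n → W) (x y : R n) (α β : ℝ → R n) : Prop where
  smooth_left : ContDiffAt ℝ ∞ α 0
  smooth_right : ContDiffAt ℝ ∞ β 0
  left : α 0 = x
  right : β 0 = y
  common : ∀ᶠ s in 𝓝 0, f (α s) = f (β s)

/-- The sheets of `f` at the points `x`, `y` of the unit sphere are tangent with opposite
coorientations: no common curve points to the outer side of both (to first order). -/
def InverseTangent (f : R n → W) (x y : R n) : Prop :=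
  ∀ α β, CommonCurve f x y α β → 0 < deriv (fun s => ‖α s‖ ^ 2) 0 →
    deriv (fun s => ‖β s‖ ^ 2) 0 ≤ 0

/-- No curve in the sheet of `f` at `x` (the image of the unit sphere near `x`) leaves the sheet at
`y` to its outer side, to second order. -/
def StaysInside (f : R n → W) (x y : R n) : Prop :=
  ∀ α β, CommonCurve f x y α β → (∀ᶠ s in 𝓝 0, ‖α s‖ = 1) →
    deriv (deriv fun s => ‖β s‖ ^ 2) 0 ≤ 0

/-- The sheets of `f` at the points `x ≠ y` of the unit sphere pass through the same point, where
they are tangent with opposite coorientations, and touch from their inner sides, to second order. -/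
def Pinching (f : R n → W) (x y : R n) : Prop :=
  ‖x‖ = 1 ∧ ‖y‖ = 1 ∧ x ≠ y ∧ f x = f y ∧ InverseTangent f x y ∧ StaysInside f x y

/-- The `β i` parametrize disjoint smooth closed balls of `M`. -/
structure Balls {k : ℕ} (β : Fin k → R n → M) : Prop where
  smooth : ∀ i x, ‖x‖ ≤ 1 → LocDiff n (β i) x
  disjoint : ∀ i j x y, ‖x‖ ≤ 1 → ‖y‖ ≤ 1 → β i x = β j y → i = j ∧ x = y

/-- `π` is a local diffeomorphism, `G` is a local diffeomorphism off the balls `β i`, and outside of
the ball `β i`, near its boundary, `G` is the composition of `F i 1` with `π`. -/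
structure ImmersesComplement {k : ℕ} (β : Fin k → R n → M) (G : M → N) (π : W → N)
    (F : Fin k → ℝ → R n → W) : Prop where
  local_diffeo : ∀ w, LocDiff n π w
  immersed : ∀ y, (∀ i x, ‖x‖ ≤ 1 → β i x ≠ y) → LocDiff n G y
  boundary : ∀ i, ∃ a > 0, ∀ x, 1 < ‖x‖ → ‖x‖ < 1 + a → G (β i x) = π (F i 1 x)

/-- The fundamental group of `N` is co-Hopfian: every injective endomorphism is surjective. -/
def CoHopfianPi (N : Type) [TopologicalSpace N] : Prop :=
  ∀ (y : N) (φ : FundamentalGroup N y →* FundamentalGroup N y), Injective φ → Surjective φ

/-- For some point `y` every loop at `G y` is homotopic to the image under `G` of a loop at `y` which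
does not meet the balls `β i`. -/
def PiOneSurjective {k : ℕ} (β : Fin k → R n → M) (G : M → N) : Prop :=
  ∃ y, ∀ γ : Path (G y) (G y), ∃ (δ : Path y y) (ε : Path (G y) (G y)),
    (∀ s i x, ‖x‖ ≤ 1 → β i x ≠ δ s) ∧ (∀ s, ε s = G (δ s)) ∧ ε.Homotopic γ

/-- `M` and `N` are homeomorphic and have a co-Hopfian fundamental group, or `G` is surjective on
the fundamental group. -/
def PiOneCondition {k : ℕ} (β : Fin k → R n → M) (G : M → N) : Prop :=
  (Nonempty (M ≃ₜ N) ∧ CoHopfianPi N) ∨ PiOneSurjective β G

end defs

/-- The complement in `M` of finitely many disjoint smooth closed balls has an immersion in `N`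
which near the boundaries of the balls lifts to the manifold `W`, immersed in `N` by a local
diffeomorphism, and can there be joined with immersions of the balls by regular homotopies without
pinching; and the condition on the fundamental groups is satisfied. -/
def HasTameImmersion (n : ℕ) (M N W : Type) [TopologicalSpace M] [ChartedSpace (R n) M]
    [TopologicalSpace N] [ChartedSpace (R n) N] [TopologicalSpace W] [ChartedSpace (R n) W] :
    Prop :=
  ∃ (k : ℕ) (β : Fin k → R n → M) (G : M → N) (π : W → N) (F : Fin k → ℝ → R n → W),
    Balls β ∧ ImmersesComplement β G π F ∧ PiOneCondition β G ∧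
      ∀ i, RegularHomotopy (F i) ∧ ∀ t ∈ Icc (0 : ℝ) 1, ∀ x y, ¬Pinching (F i t) x y

/-- `N` is a smooth Hausdorff `n`-manifold -/
def IsSmooth (n : ℕ) (N : Type) [TopologicalSpace N] [ChartedSpace (R n) N] : Prop :=
  T2Space N ∧ IsManifold (𝓡 n) ∞ N

/-- `M` and `N` are diffeomorphic -/
def Diffeomorphic (n : ℕ) (M N : Type) [TopologicalSpace M] [ChartedSpace (R n) M]
    [TopologicalSpace N] [ChartedSpace (R n) N] : Prop :=
  Nonempty (Diffeomorph (𝓡 n) (𝓡 n) M N ∞)

theorem reg {n : ℕ} {W : Type} [TopologicalSpace W] [ChartedSpace (R n) W]
    [IsManifold (𝓡 n) ∞ W] {F : ℝ → R n → W} (hF : RegularHomotopy F)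
    (hT : ∀ t ∈ Icc (0 : ℝ) 1, ∀ x y, ¬Pinching (F t) x y) : H27.Tgt.Reg (𝓡 n) F := by
  refine ⟨hF.smooth, fun t ht x hx => H27.Tgt.inj_of_LD (hF.immersed t ht x hx),
    fun x hx => H27.Tgt.inj_of_LD (hF.start x hx), fun t ht x y hx hy hxy he => ?_⟩
  by_contra hcon
  refine hT t ht x y ⟨hx, hy, hxy, he, fun α β h h1 => ?_, fun α β h h1 => ?_⟩
  · by_contra h2
    exact hcon ⟨α, β, h.smooth_left, h.smooth_right, h.left, h.right, h.common,
      Or.inl ⟨h1, not_le.1 h2⟩⟩
  · by_contra h2
    exact hcon ⟨α, β, h.smooth_left, h.smooth_right, h.left, h.right, h.common,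
      Or.inr ⟨h1, not_le.1 h2⟩⟩

/-- Let `M` and `N` be closed connected smooth `n`-manifolds and `W` a smooth Hausdorff
`n`-manifold. If `HasTameImmersion n M N W` then `M` and `N` are diffeomorphic. -/
theorem result (n : ℕ) (M N W : Type)
    [TopologicalSpace M] [ChartedSpace (R n) M] (sM : IsSmooth n M) [CompactSpace M]
    [ConnectedSpace M]
    [TopologicalSpace N] [ChartedSpace (R n) N] (sN : IsSmooth n N) [CompactSpace N]
    [ConnectedSpace N]
    [TopologicalSpace W] [ChartedSpace (R n) W] (sW : IsSmooth n W)
    (h : HasTameImmersion n M N W) : Diffeomorphic n M N := by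
  obtain ⟨_, _⟩ := sN
  obtain ⟨_, _⟩ := sM
  obtain ⟨_, _⟩ := sW
  obtain ⟨k, β, G, π, F, hβ, hG, hpi, hF⟩ := h
  obtain ⟨p, hp, hpG⟩ := H27.Tgt.punctured (n := n) hG.local_diffeo hβ.smooth hβ.disjoint
    hG.immersed (fun i => reg (hF i).1 (hF i).2) hG.boundary
  have hld : IsLocalDiffeomorph (𝓡 n) (𝓡 n) ∞ p := hp
  have hlN : LocallyPathConnectedSpace N := ChartedSpace.locallyPathConnectedSpace (R n) N
  have hlM : LocallyPathConnectedSpace M := ChartedSpace.locallyPathConnectedSpace (R n) M
  have hN : PathConnectedSpace N := pathConnectedSpace_iff_connectedSpace.2 inferInstance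
  have hM : PathConnectedSpace M := pathConnectedSpace_iff_connectedSpace.2 inferInstance
  let P : C(M, N) := ⟨p, hld.isLocalHomeomorph.continuous⟩
  refine ⟨hld.diffeomorphOfBijective ?_⟩
  rcases hpi with ⟨⟨e⟩, hc⟩ | ⟨y, hy⟩
  · exact H27.Tgt.bij_of_coHopf P hld.isLocalHomeomorph e.symm hc
  · obtain ⟨δ₀, -, h0, -, -⟩ := hy (Path.refl _)
    have hy0 : p y = G y := hpG y fun i x hx => by simpa using h0 0 i x hx
    refine H27.Tgt.bij_of_pi_one P hld.isLocalHomeomorph y fun γ => ?_
    obtain ⟨δ, ε, h1, h2, h3⟩ := hy (γ.cast hy0.symm hy0.symm)
    refine ⟨δ, ?_⟩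
    have h4 : δ.map P.continuous = ε.cast hy0 hy0 := by
      ext s
      change p (δ s) = ε s
      rw [h2 s]
      exact hpG _ fun i x hx => h1 s i x hx
    rw [h4]
    obtain ⟨K⟩ := h3
    exact ⟨K.cast (Path.ext rfl) (Path.ext rfl)⟩

end Pool.Agent.Results.MP_d40431_gt.PuncturedImmersions
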