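import Pool.Agent.H34.DU.Rand

/-!
# Homeomorphic 4-manifolds: rare success of a randomised algorithm is as good as a decision

The inputs are pairs of finite simplicial complexes that triangulate homeomorphic 4-manifolds, the
question is whether they are piecewise linearly homeomorphic (in dimension four: diffeomorphic).

* `Pr`: a class of pairs of complexes. `Stable Pr`: it is symmetric and closed under the stellar
  subdivisions of facets. For example `Pairs R`, where `R` is any symmetric relation between spaces
  which is invariant under piecewise linear homeomorphisms: `Homeomorphic` for all pairs of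
  homeomorphic 4-manifolds with or without boundary (Q1), or the same for closed, or orientable, or
  simply connected manifolds, or manifolds with a given fundamental group or Euler characteristic.
* `Decidable Pr`: some algorithm halts for all pairs in `Pr` and decides whether the complexes are
  piecewise linearly homeomorphic.
* `Good Pr C f N N'`: the algorithm `f` fails (does not halt, or errs) for at most
  `C * 3 ^ (N / 4 + N' / 4) * (N / 4)! * (N' / 4)!` of the pairs in `Pr` with `N` and `N'` facets.
* `Randomised f`: `f` is a randomised algorithm, which need not halt always, with any number of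
  random bits.
* `SucceedsWithProbability Pr s k C f`: for all `j` and `ρ, ρ' < 4` the algorithm `f` is good with
  `4 * s j + ρ` and `4 * s j + ρ'` facets, with probability at least `1 / k`.
* `ShortPrograms Pr m C size f`: for all `N`, `N'` one of the first `m * (max N N' + 1) ^ 2` programs
  computes `N`, `N'` and is good with `N` and `N'` facets.

**Theorem**, parts (1) and (2), unconditional: for every stable class of pairs, every computable
sequence `s` which tends to infinity (as sparse as you like) and every `k`, however large, an
algorithm as in `SucceedsWithProbability` gives a decision procedure for all pairs in `Pr`, and so do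
short programs. So if Q1 is undecidable for a stable class of pairs, then every randomised algorithm,
for infinitely many sizes, with probability more than `1 - 1 / k` fails very often in this class. All
invariant relations give stable classes.

Part (3), conditional on published theorems on 4-manifolds (Freedman, Rochlin, Wall,
Mandelbaum-Moishezon, Harer-Kas-Kirby, Whitehead, Cairns-Hirsch-Munkres, twisted spin bordism), which
are the fields of the structure `FourManifolds` (file `Pool/Agent/H34/DU/Theory.lean`): for some
number `c` the class `Special T c` is stable and undecidable. It consists of the pairs of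
triangulations of closed connected 4-manifolds `Z`, `Z'` of Euler characteristic `c` which are
homeomorphic, have diffeomorphic orientation coverings, become diffeomorphic after the connected sum
with ONE complex projective plane, and are either diffeomorphic or not even diffeomorphic after the
connected sum with any closed simply connected spin manifold. By (1) no randomised algorithm has few
failures in this class with probability at least `1 / k`. (The library has the statement that no
algorithm is right for all homeomorphic pairs, `MP_d40431_gt/DiffeoUndecidable`.)

**Proof.** (1) A vote over the iterated subdivisions with about `4 n` facets gives randomised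
candidates for the answers for all small inputs. Choose a finite set of inputs for which the limit
superior of the probability to halt is almost minimal: then for every larger finite set of inputs
there are infinitely many `n` for which one sees the behaviour of almost all candidates which halt on
the first set. Enlarge this set such that, for such `n`, the candidates which are right on it but
wrong on a further input `x` never have probability more than `1 / (2 k)`, if `n` is suitable. Since
the right candidates have probability at least `1 / k`, the answer for `x` which is given by few of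
the candidates that are right on the set is the wrong one. (3) The halting problem is reduced to the
word problem of a group and this to the pairs `R # bd (P_w) # K3`, `R # bd (P_w) # 11 (S^2 × S^2)`,
`R = S^1 ×~ S^3`.
-/

set_option autoImplicit false

namespace Pool.Agent.Results.MP_d40431_gt.SmallProbabilityOfSuccess

open Pool.Agent.H34.DU Pool.Agent.Q324.SC.Tri

/-- The relation `R` between spaces is symmetric and invariant under piecewise linear
homeomorphisms. -/
structure Invariant (R : Set (ℕ → ℝ) → Set (ℕ → ℝ) → Prop) : Prop where
  symm : ∀ X Y, R X Y → R Y X
  left : ∀ X X' Y, PLHomeo X X' → R X Y → R X' Y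

/-- The pairs of complexes whose realizations are in the relation `R`. -/
def Pairs (R : Set (ℕ → ℝ) → Set (ℕ → ℝ) → Prop) (K L : List (List ℕ)) : Prop :=
  IsComplex K ∧ IsComplex L ∧ R (Space K) (Space L)

/-- `X` and `Y` are homeomorphic piecewise linear 4-manifolds, with or without boundary. -/
def Homeomorphic (X Y : Set (ℕ → ℝ)) : Prop := PLMan X ∧ PLMan Y ∧ Nonempty (X ≃ₜ Y)

theorem good_of_decides {Pr : List (List ℕ) → List (List ℕ) → Prop}
    {D : List (List ℕ) × List (List ℕ) →. Bool}
    (hD : ∀ K L, Pr K L → ∃ b ∈ D (K, L), (b = true ↔ PLHomeo (Space K) (Space L)))
    (C N N' : ℕ) : Good Pr C D N N' := by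
  have h1 : Exceptions Pr D N N' = ∅ := by
    ext S
    simp only [Exceptions, Set.mem_ofPred_eq, Set.mem_empty_iff_false, iff_false]
    rintro ⟨K, L, h1, _, _, _, _, h5⟩
    exact h5 (hD K L h1)
  unfold Good
  rw [h1, Set.encard_empty]
  exact zero_le

theorem stable_of_invariant {R : Set (ℕ → ℝ) → Set (ℕ → ℝ) → Prop} (hR : Invariant R) :
    Stable (Pairs R) := by
  refine ⟨fun h => h.1, fun h => ⟨h.2.1, h.1, hR.symm _ _ h.2.2⟩, ?_⟩
  intro K L c hc h
  have hK := (valid_iff K).2 h.1
  exact ⟨(valid_iff _).1 (sub_valid hK hc), h.2.1, hR.left _ _ _ (pl_sub hK hc) h.2.2⟩

/-- **Theorem.** (1) For every stable class of pairs of complexes (and every sequence of sizes which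
tends to infinity) the decidability of piecewise linear homeomorphism is equivalent to the existence
of a randomised algorithm which has few failures with probability at least `1 / k`, and to the
existence of short programs with few failures. (2) Invariant relations give stable classes; one of
them is the relation of being homeomorphic 4-manifolds (Q1). (3) Conditional on the theorems listed
in `FourManifolds`: for some `c` the stable class of the special pairs of Euler characteristic `c` is
undecidable. -/
theorem result :
    (∀ Pr : List (List ℕ) → List (List ℕ) → Prop, Stable Pr →
      ∀ s : ℕ → ℕ, Computable s → (∀ j, j ≤ s j) →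
      (Decidable Pr ↔ ∃ (k C : ℕ) (f : List Bool × List (List ℕ) × List (List ℕ) →. Bool),
        Randomised f ∧ SucceedsWithProbability Pr s k C f) ∧
      (Decidable Pr ↔ ∃ (m C : ℕ) (size : ℕ →. ℕ × ℕ)
        (f : ℕ × List (List ℕ) × List (List ℕ) →. Bool),
        Partrec size ∧ Partrec f ∧ ShortPrograms Pr m C size f)) ∧
    (∀ R : Set (ℕ → ℝ) → Set (ℕ → ℝ) → Prop, Invariant R → Stable (Pairs R)) ∧
    Invariant Homeomorphic ∧
    ∀ T : FourManifolds, ∃ c : ℤ, Stable (Special T c) ∧ ¬ Decidable (Special T c) := by
  refine ⟨?_, fun R hR => stable_of_invariant hR, ⟨?_, ?_⟩, ?_⟩
  · intro Pr hS s hs hs2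
    refine ⟨⟨?_, ?_⟩, ⟨?_, ?_⟩⟩
    · rintro ⟨D, hD, hD2⟩
      refine ⟨1, 0, fun x => D x.2, ⟨hD.comp Computable.snd, fun _ _ _ _ hb => hb⟩,
        fun j ρ _ ρ' _ => ⟨0, ?_⟩⟩
      have h1 : {σ : List Bool | σ.length = 0 ∧
          Good Pr 0 (fun p => D p) (4 * s j + ρ) (4 * s j + ρ')} = {[]} := by
        ext σ
        simp only [Set.mem_ofPred_eq, Set.mem_singleton_iff, List.length_eq_zero_iff]
        exact ⟨fun h => h.1, fun h => ⟨h, good_of_decides hD2 0 _ _⟩⟩
      change 2 ^ 0 ≤ 1 * {σ : List Bool | σ.length = 0 ∧
        Good Pr 0 (fun p => D p) (4 * s j + ρ) (4 * s j + ρ')}.ncard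
      rw [h1, Set.ncard_singleton]
      norm_num
    · rintro ⟨k, C, f, hf, h⟩
      exact of_random hS hs hs2 hf h
    · rintro ⟨D, hD, hD2⟩
      refine ⟨1, 0, fun i => Part.some i.unpair, fun x => D x.2, ?_, hD.comp Computable.snd, ?_⟩
      · exact (Primrec.unpair.to_comp).partrec
      · intro N N'
        refine ⟨Nat.pair N N', ?_, ?_, good_of_decides hD2 0 N N'⟩
        · rw [Nat.one_mul]
          exact Nat.pair_lt_max_add_one_sq N N'
        · rw [Part.mem_some_iff, Nat.unpair_pair]
    · rintro ⟨m, C, size, f, hs, hf, h⟩
      exact of_programs hS hs hf h
  · rintro X Y ⟨h1, h2, ⟨e⟩⟩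
    exact ⟨h2, h1, ⟨e.symm⟩⟩
  · rintro X X' Y hX ⟨h1, h2, ⟨e⟩⟩
    obtain ⟨e'⟩ := homeo_of_pl hX
    obtain ⟨f, g, h⟩ := hX
    exact ⟨h1.transport h.symm, h2, ⟨e'.symm.trans e⟩⟩
  · intro T
    obtain ⟨c, hc⟩ := not_decidable T
    exact ⟨c, special_stable T c, hc⟩

end Pool.Agent.Results.MP_d40431_gt.SmallProbabilityOfSuccess
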