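import Pool.Agent.H8.CF.Vol

/-!
# Homeomorphisms which coarsely preserve the volumes of small 4-simplices

Q1 asks how to decide whether two homeomorphic smooth 4-manifolds `X` and `Y` are diffeomorphic. The theorem gives a
condition on a homeomorphism `X → Y` which implies that the answer is yes. It compares only volumes of small simplices
with five vertices, up to a factor which may depend on the place and on the scale, at a sparse set of scales.

Let `X` and `Y` be closed smooth 4-manifolds, `X` connected, orientable or not. Let `e : X → ℝᵐ` and `j : Y → ℝᵏ` be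
injective immersions (by the embedding theorem of Nash every Riemannian metric is induced by such a map). Let `S` be a
set of scales which contains arbitrarily small positive numbers, for instance a sequence which tends to zero arbitrarily
fast. Let `g : X → Y` be a homeomorphism, or any continuous map with a right homotopy inverse, such that at each point
`x` at which `g` is not a local diffeomorphism there are `δ < 3 π / 16 = 0.589…` and an alternating 4-linear form `B` on
`ℝᵐ`, which restricts to the volume form (for one of the two orientations) of the tangent space at `x`, with the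
following property. For the `y` near `x` and the small `s ∈ S` there is a 4-linear form `β` on `ℝᵏ` such that for all
points `u₁, …, u₄` near `x` at distance `≤ s` from `y`

* the number `β (f u₁ - f y, …, f u₄ - f y)` (`f = j ∘ g`) differs from `B (e u₁ - e y, …, e u₄ - e y)`, that is from
  `24` times the oriented volume of the simplex with the vertices `y, u₁, …, u₄`, by at most `δ s⁴`;
* `|β| |f u₁ - f y| ⋯ |f u₄ - f y| ≤ C s⁴`.

For instance `g` may be Lipschitz near `x`, and `β` a multiple of the volume form of `Y` at `g y`; so the condition says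
that the oriented volumes of the small simplices near `x` are multiplied by almost the same factor, as far as they are
not small compared to the fourth power of the diameter. The error `δ s⁴` is allowed for all simplices; for `δ ≥ 1` the
condition says nothing, by `β = 0`.

Then `g` is a uniform limit of diffeomorphisms `X → Y` which agree with `g` outside any given neighbourhood of the set
of the points at which `g` is not a local diffeomorphism. In particular `X` and `Y` are diffeomorphic.

The factor may be different at each point and scale, so that `g` is not required to preserve the measure even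
approximately. A homeomorphism which preserves the measure exactly need not satisfy the condition: it says nothing about
simplices which are spanned by distant points.

The proof. Let `v` be a unit tangent vector at `x`. Complete it to an orthonormal basis `v, a₂, a₃, a₄` of the tangent
space and choose points `w₂, w₃, w₄` near `y + s a₂`, `y + s a₃`, `y + s a₄`. The volume of the simplex
`y, u, w₂, w₃, w₄` is `s³ / 24` times the coordinate of `u - y` in the direction `v`, so that the linear functional
`p ↦ β (p - f y, f w₂ - f y, f w₃ - f y, f w₄ - f y) / s³` recovers this coordinate in the ball of radius `s` about `y`,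
with an error of at most `δ s` or so. By a theorem of the library (`H865_cl.closed_main`, the engine of
`MP_6db3ee_gt.CoarselyAffine`) such maps are limits of diffeomorphisms.
-/

set_option autoImplicit false

open Set Filter Topology Metric Function
open scoped Manifold ContDiff

noncomputable section

namespace Pool.Agent.Results.MP_d40431_gt.VolumesOfSimplices

/-- `ℝ⁴` -/
abbrev R4 : Type := EuclideanSpace ℝ (Fin 4)

/-- `M` (a space with an atlas of charts with values in `ℝ⁴`) is a closed smooth 4-manifold -/
structure ClosedSmooth (M : Type) [TopologicalSpace M] [ChartedSpace R4 M] : Prop where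
  smooth : IsManifold (𝓡 4) ∞ M
  hausdorff : T2Space M
  compact : CompactSpace M

/-- the set of scales contains arbitrarily small positive numbers -/
def SmallScales (S : Set ℝ) : Prop := ∀ δ : ℝ, 0 < δ → ∃ s ∈ S, 0 < s ∧ s < δ

section defs

variable {M N : Type} [TopologicalSpace M] [TopologicalSpace N] {m k : ℕ}

/-- `f` is a local diffeomorphism at `x` (of class `C^∞`, with smooth inverse) -/
def LocDiff [ChartedSpace R4 M] [ChartedSpace R4 N] (f : M → N) (x : M) : Prop :=
  IsLocalDiffeomorphAt (𝓡 4) (𝓡 4) ∞ f x

/-- `e` is a smooth immersion at `x`: in a smooth parametrization `A` of a neighbourhood of `x = A 0` (a local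
diffeomorphism at `0`) it is smooth near `0` with an injective derivative at `0`. -/
def IsImmersed [ChartedSpace R4 M] (e : M → EuclideanSpace ℝ (Fin m)) (x : M) : Prop :=
  ∃ A : R4 → M, A 0 = x ∧ LocDiff A 0 ∧
    (∀ᶠ z in 𝓝 (0 : R4), ContDiffAt ℝ ∞ (fun z => e (A z)) z) ∧ Injective (fderiv ℝ (fun z => e (A z)) 0)

/-- `e` is a continuous injective immersion -/
def IsEmb [ChartedSpace R4 M] (e : M → EuclideanSpace ℝ (Fin m)) : Prop :=
  Continuous e ∧ Injective e ∧ ∀ x, IsImmersed e x

/-- `g` has a right homotopy inverse -/
def HasRightHomotopyInverse (g : C(M, N)) : Prop := ∃ r : C(N, M), (g.comp r).Homotopic (ContinuousMap.id N)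

/-- the tangent space of `e (M)` at `e x`: the values of the derivatives at `0` of `e ∘ A`, where `A` is a smooth
parametrization of a neighbourhood of `x = A 0` -/
def Tangent [ChartedSpace R4 M] (e : M → EuclideanSpace ℝ (Fin m)) (x : M) : Set (EuclideanSpace ℝ (Fin m)) :=
  {p | ∃ (A : R4 → M) (v : R4), A 0 = x ∧ LocDiff A 0 ∧ fderiv ℝ (fun z => e (A z)) 0 v = p}

/-- the alternating form `B` restricts to the volume form (or its negative) of the tangent space at `x` -/
def IsVolumeForm [ChartedSpace R4 M] (e : M → EuclideanSpace ℝ (Fin m))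
    (B : EuclideanSpace ℝ (Fin m) [⋀^Fin 4]→L[ℝ] ℝ) (x : M) : Prop :=
  ∀ b : Fin 4 → EuclideanSpace ℝ (Fin m), (∀ i, b i ∈ Tangent e x) → Orthonormal ℝ b → |B b| = 1

/-- The `B`-volumes of the simplices near `x` of the sizes `s ∈ S` are preserved up to `δ s ^ 4`: for all `y` near `x`
and all small `s ∈ S` there is a 4-linear form `β` on `ℝᵏ` such that `β (f u₁ - f y, …, f u₄ - f y)` differs from
`B (e u₁ - e y, …, e u₄ - e y)` by at most `δ s ^ 4`, and `‖β‖ ‖f u₁ - f y‖ ⋯ ‖f u₄ - f y‖ ≤ C s ^ 4`, for all
`u₁, …, u₄` near `x` with `‖e uᵢ - e y‖ ≤ s`. -/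
def VolumesPreservedAt (e : M → EuclideanSpace ℝ (Fin m)) (B : EuclideanSpace ℝ (Fin m) [⋀^Fin 4]→L[ℝ] ℝ)
    (f : M → EuclideanSpace ℝ (Fin k)) (S : Set ℝ) (δ : ℝ) (x : M) : Prop :=
  ∃ U ∈ 𝓝 x, ∃ r : ℝ, 0 < r ∧ ∃ C : ℝ, ∀ y ∈ U, ∀ s ∈ S, 0 < s → s < r →
    ∃ β : ContinuousMultilinearMap ℝ (fun _ : Fin 4 => EuclideanSpace ℝ (Fin k)) ℝ,
    ∀ u : Fin 4 → M, (∀ i, u i ∈ U) → (∀ i, ‖e (u i) - e y‖ ≤ s) →
      |β (fun i => f (u i) - f y) - B (fun i => e (u i) - e y)| ≤ δ * s ^ 4 ∧
        ‖β‖ * ∏ i, ‖f (u i) - f y‖ ≤ C * s ^ 4

end defs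

/-- Let `X` and `Y` be closed smooth 4-manifolds with injective immersions `e` and `j`, `X` connected. Let `g` be a
continuous map with a right homotopy inverse which at each point `x` is a local diffeomorphism or preserves the oriented
volumes of the small 4-simplices near `x` up to `δ s ^ 4`, with `δ < 3 π / 16`. Then `g` is a uniform limit of
diffeomorphisms. -/
theorem result (X Y : Type) [TopologicalSpace X] [TopologicalSpace Y] [ChartedSpace R4 X] [ChartedSpace R4 Y]
    (hX : ClosedSmooth X) (hXc : ConnectedSpace X) (hY : ClosedSmooth Y)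
    -- the maps which measure distances in `X` and `Y`, and the set of scales
    (m k : ℕ) (e : X → EuclideanSpace ℝ (Fin m)) (he : IsEmb e) (j : Y → EuclideanSpace ℝ (Fin k)) (hj : IsEmb j)
    (S : Set ℝ) (hS : SmallScales S)
    -- the map `g`
    (g : C(X, Y)) (hg : HasRightHomotopyInverse g)
    (hc : ∀ x, LocDiff g x ∨ ∃ (δ : ℝ) (B : EuclideanSpace ℝ (Fin m) [⋀^Fin 4]→L[ℝ] ℝ), δ < 3 * Real.pi / 16 ∧
      IsVolumeForm e B x ∧ VolumesPreservedAt e B (fun x => j (g x)) S δ x)
    -- a neighbourhood of the set of the bad points
    (O : Set X) (hO : IsOpen O) (hbad : ∀ x, ¬ LocDiff g x → x ∈ O) (ε : ℝ) (hε : 0 < ε) :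
    ∃ Φ : Diffeomorph (𝓡 4) (𝓡 4) X Y ∞, (∀ x, ‖j (Φ x) - j (g x)‖ < ε) ∧ ∀ x, x ∉ O → Φ x = g x := by
  have := hX.smooth
  have := hX.hausdorff
  have := hX.compact
  have := hY.smooth
  have := hY.hausdorff
  have := hY.compact
  obtain ⟨he, hei, he'⟩ := he
  obtain ⟨hj, hji, hj'⟩ := hj
  obtain ⟨r, hr⟩ := hg
  refine Pool.Agent.H865_cl.closed_main 3 m k X Y e he hei he' j hj hji hj' g r hr S hS (fun x hx => ?_) O hO hbad ε hε
  rw [Pool.Agent.H865_small.const_four]
  rcases hc x with h | ⟨δ, B, hδ, hB, h⟩
  · exact absurd h hx
  · obtain ⟨η, hη, hη1⟩ : ∃ η, max δ 0 < η ∧ η < 3 * Real.pi / 16 :=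
      exists_between (max_lt hδ (by positivity))
    refine ⟨η, hη1, Or.inl ?_⟩
    refine Pool.Agent.H8.CF.cct_of_vol (δ := max δ 0) (he' x) hB (le_max_right _ _) hη ?_
    obtain ⟨U, hU, r, hr, C, hP⟩ := h
    refine ⟨U, hU, r, hr, C, fun y hy s hs hs0 hsr => ?_⟩
    obtain ⟨β, hβ⟩ := hP y hy s hs hs0 hsr
    refine ⟨β, fun u hu hus => ⟨(hβ u hu hus).1.trans ?_, (hβ u hu hus).2⟩⟩
    exact mul_le_mul_of_nonneg_right (le_max_left _ _) (by positivity)

end Pool.Agent.Results.MP_d40431_gt.VolumesOfSimplices
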